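import Pool.Agent.Lib.MP_ae5b4e_an_TS.Uniq
import Pool.Agent.Lib.MP_ae5b4e_an_WB.Defs
import Pool.Agent.Lib.MP_ae5b4e_an_PK.Defs
import Pool.Agent.Lib.MP_ae5b4e_an_M.EqA

/-!
# MP_ae5b4e_an, part C: generic parameters and the asymptotics of the slices

All but countably many `γ > 0` are generic (no critical value of `q` on the spiral of the tip value,
in particular all tips are simple); the slices of the limit label are asymptotic to the identity;
the function `v_∞` is bounded near compact intervals.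
-/

noncomputable section

namespace Pool.Agent.MP_ae5b4e_an_C

open Complex Set Filter Topology Metric MeasureTheory
open Pool.Agent.MP_ae5b4e_an_NB2 (Sys)
open Pool.Agent.MP_ae5b4e_an_PB (Base)
open Pool.Agent.MP_ae5b4e_an_N5 (NV)
open Pool.Agent.MP_ae5b4e_an_M
open PorTR (Hm)
open Pool.Agent.MP_ae5b4e_an_WB (tipc)

/-- all but countably many `γ > 0` are generic -/
theorem gen_countable {u : ℂ} (hu : u.im ≠ 0) {q : ℂ → ℂ} (hq : DifferentiableOn ℂ q Hm)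
    (hne : ∃ z ∈ Hm, ∃ z' ∈ Hm, q z ≠ q z') :
    ∃ N : Set ℝ, N.Countable ∧ ∀ γ : ℝ, 0 < γ → γ ∉ N →
      PorTS.Generic u q (PorTS.tipq γ) ∧
      ∀ l ∈ Hm, (γ : ℂ) ^ 2 * q l = tipc → deriv q l ≠ 0 := by
  have hc : ¬ ∃ c : ℂ, ∀ z ∈ Hm, q z = c := by
    rintro ⟨c, hc⟩
    obtain ⟨z, hz, z', hz', h⟩ := hne
    exact h ((hc z hz).trans (hc z' hz').symm)
  refine ⟨_, PorTS.countable_not_generic hu hq hc, fun γ hγ hN => ?_⟩
  have hg : PorTS.Generic u q (PorTS.tipq γ) := by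
    by_contra hcon
    exact hN ⟨hγ, hcon⟩
  refine ⟨hg, fun l hl h hd => ?_⟩
  have hγc : (γ : ℂ) ^ 2 ≠ 0 := pow_ne_zero 2 (by exact_mod_cast hγ.ne')
  have h3 : PorTS.tipq γ = tipc / (γ : ℂ) ^ 2 := by
    unfold PorTS.tipq tipc
    push_cast
    field_simp
  refine hg l hl hd 0 ?_
  rw [h3, ← h]
  simp only [ofReal_zero, mul_zero, Complex.exp_zero, mul_one]
  exact (mul_div_cancel_left₀ _ hγc).symm

variable {Y : Sys} {h R C0 : ℝ} {v : ℂ → ℝ} {G L : ℂ × ℂ → ℂ} {U : Ultrafilter ℕ} {β C1 : ℝ}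
  {c V : ℕ → ℝ}

/-- the slices of the limit label are asymptotic to the identity -/
theorem asy_LI (hB : Base Y h R C0 v G L) (HW : Win v U β C1 c V) (x : ℕ → ℝ) (γ : ℂ) :
    Pool.Agent.MP_ae5b4e_an_PK.Asy (fun τ => LI L h U x c V (τ, γ)) := by
  intro ε hε
  obtain ⟨M, -, hM⟩ := LI_asym hB HW x γ hε
  refine ⟨M + 1, fun τ hτ => ?_⟩
  exact (hM τ (by linarith)).2.1.le

/-- bound of `v_∞` near the interval `[K, 2 K]` -/
theorem vI_bdd (hv : NV v R C0) (hR : 0 < R) (HW : Win v U β C1 c V) {K : ℝ} (hK : 1 ≤ K) :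
    ∀ x ∈ Icc K (2 * K), ∀ z : ℂ, ‖z‖ ≤ 1 → vI v U c V ((x : ℂ) + z) ≤ C1 * (3 * K) := by
  intro x hx z hz
  have hC : 0 < C1 := by linarith [HW.C1_one]
  have h1 := vI_le hv hR HW ((x : ℂ) + z)
  have h2 : ‖(x : ℂ) + z‖ ≤ 3 * K := by
    refine (norm_add_le _ _).trans ?_
    rw [norm_real, Real.norm_eq_abs, abs_of_pos (by linarith [hx.1])]
    linarith [hx.2]
  refine h1.trans (mul_le_mul_of_nonneg_left ?_ hC.le)
  apply max_le h2
  by_cases h3 : ‖(x : ℂ) + z‖ ≤ 1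
  · exact (Real.rpow_le_one (norm_nonneg _) h3 HW.β_pos.le).trans (by linarith)
  · push Not at h3
    calc ‖(x : ℂ) + z‖ ^ β ≤ ‖(x : ℂ) + z‖ ^ (1 : ℝ) :=
          Real.rpow_le_rpow_of_exponent_le h3.le HW.β_le
      _ = ‖(x : ℂ) + z‖ := Real.rpow_one _
      _ ≤ 3 * K := h2

end Pool.Agent.MP_ae5b4e_an_C
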