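import Pool.Agent.Lib.MP_ae5b4e_an_SD.All3
import Pool.Agent.Lib.MP_ae5b4e_an_TR.FamC
import Pool.Agent.Lib.MP_ae5b4e_an_M.WA
import Pool.Agent.Lib.MP_ae5b4e_an_MT.Sat
import Pool.Agent.Lib.MP_ae5b4e_an_WD.Wall

/-!
# MP_ae5b4e_an, part C: a window limit with good points

`density_tip_all` for the family of the window limits translated down by `e`.
-/

noncomputable section

namespace Pool.Agent.MP_ae5b4e_an_C

open Complex Set Filter Topology Metric MeasureTheory
open Pool.Agent.MP_ae5b4e_an_NB2 (Sys)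
open Pool.Agent.MP_ae5b4e_an_PB (Base)
open Pool.Agent.MP_ae5b4e_an_M
open PorTR (Hm)
open Pool.Agent.MP_ae5b4e_an_WB (GoodP Off tipc)

variable {Y : Sys} {h R C0 : ℝ} {v : ℂ → ℝ} {G L : ℂ × ℂ → ℂ} {U : Ultrafilter ℕ} {β C1 : ℝ}
  {c V : ℕ → ℝ}

/-- a good point of the translated function -/
theorem goodP_of_down {u : ℂ} {q : ℂ → ℂ} {e : ℝ} (he : 0 ≤ e) {P : ℂ} (hP : q P ≠ 0)
    (hG : PorTS.Good u (fun z => q (z - e * I)) (P + e * I)) : GoodP u q P := by
  obtain ⟨l, hl, hi⟩ := hG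
  refine ⟨hP, fun t => l t - e * I, ?_, hl.cont.sub continuousOn_const, fun s hs => ?_, ?_⟩
  · show l 0 - e * I = P
    rw [hl.start, add_sub_cancel_right]
  · have h1 := hl.low s hs
    have h2 := hl.val s hs
    have h3 := hl.reg s hs
    refine ⟨?_, ?_, ?_⟩
    · have h4 : (l s).im < 0 := h1
      show (l s - e * I).im < 0
      simp only [sub_im, mul_im, ofReal_re, I_im, mul_one, ofReal_im, I_re, mul_zero, add_zero]
      linarith
    · show q (l s - e * I) = _
      have h4 : q (l s - e * I) = q (P + e * I - e * I) * cexp (-2 * u * s) := h2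
      rw [h4, add_sub_cancel_right]
      congr 2
      ring
    · show deriv q (l s - e * I) ≠ 0
      rwa [deriv_comp_sub_const] at h3
  · have h4 : deriv (fun t => l t - e * I) = deriv l := by
      funext t
      exact deriv_sub_const _
    rw [h4]
    exact hi

/-- **The good window limit.** For every `e > 0`, `d0 > 0` there are a sequence of places and
`kap > 0` such that for almost all real `γ > 0` all points of depth `> e + 2 d0` on the spiral of the
tip value of `γ` with `|q| < kap` are good, and there is no critical value of `q` on the spiral at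
depth `> e`. -/
theorem exists_goodQ (hB : Base Y h R C0 v G L) (HW : Win v U β C1 c V) {η : ℝ} (hη : 0 < η)
    (hv : ∀ᶠ n in (U : Filter ℕ), η * V n ≤ v (c n)) {u : ℂ} (hu : u.re = 1) (hu' : u.im ≠ 0)
    {e d0 : ℝ} (he : 0 < e) (hd0 : 0 < d0) :
    ∃ (x : ℕ → ℝ) (kap : ℝ), 0 < kap ∧ ∀ᵐ γ : ℝ, 0 < γ →
      (∀ z : ℂ, z.im < -e → deriv (qI Y h U x c V) z = 0 → ∀ r : ℝ,
        qI Y h U x c V z ≠ PorTS.tipq γ * cexp (-2 * u * r)) ∧
      ∀ (P : ℂ) (r : ℝ), e + 2 * d0 < -P.im → ‖qI Y h U x c V P‖ < kap →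
        qI Y h U x c V P = PorTS.tipq γ * cexp (-2 * u * r) → GoodP u (qI Y h U x c V) P := by
  have hne : ∀ q ∈ WL Y h U c V, ∃ z ∈ Hm, q z ≠ 0 := by
    rintro _ ⟨x, rfl⟩
    obtain ⟨l, hl, hl'⟩ := Pool.Agent.MP_ae5b4e_an_MT.sat hB HW x hη hv
    exact ⟨l, hl, hl'⟩
  have hL := lims_down hB HW hne he
  obtain ⟨kap, F⟩ := hL.fam hd0 (show 2 * d0 < 2 * d0 + 1 by linarith)
  have hnonempty : (Wdn (WL Y h U c V) e).Nonempty :=
    ⟨fun z => qI Y h U (fun _ => 0) c V (z - e * I), _, ⟨fun _ => 0, rfl⟩, rfl⟩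
  obtain ⟨_, ⟨_, ⟨x, rfl⟩, rfl⟩, hae⟩ :=
    MP_ae5b4e_SD.density_tip_all F hu hu' hL.cpt hnonempty
  refine ⟨x, kap, F.kap_pos, ?_⟩
  filter_upwards [hae] with γ hγ hγ0
  obtain ⟨hgen, hgood⟩ := hγ hγ0
  have htip : PorTS.tipq γ ≠ 0 := by
    unfold PorTS.tipq
    rw [neg_ne_zero, Complex.ofReal_ne_zero]
    positivity
  refine ⟨fun z hz hd r => ?_, fun P r hP hk hr => ?_⟩
  · have h1 : z + e * I ∈ Hm := by
      show (z + e * I).im < 0
      simp only [add_im, mul_im, ofReal_re, I_im, mul_one, ofReal_im, I_re, mul_zero, add_zero]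
      linarith
    have h2 := hgen (z + e * I) h1 (by
      rw [deriv_comp_sub_const, add_sub_cancel_right]
      exact hd) r
    simpa only [add_sub_cancel_right] using h2
  · have h1 : 2 * d0 < -(P + e * I).im := by
      simp only [add_im, mul_im, ofReal_re, I_im, mul_one, ofReal_im, I_re, mul_zero, add_zero]
      linarith
    refine goodP_of_down he.le ?_ (hgood (P + e * I) r h1 ?_ ?_)
    · rw [hr]
      exact mul_ne_zero htip (Complex.exp_ne_zero _)
    · simpa only [add_sub_cancel_right] using hk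
    · simpa only [add_sub_cancel_right] using hr

/-- the labels which are met by a tip are good -/
theorem goodP_of_not_off {u : ℂ} {q : ℂ → ℂ} {γ kap D : ℝ} (hu : u.re = 1) (hγ : 0 < γ)
    (hkap : Real.exp 2 / (4 * γ ^ 2) < kap)
    (hg : ∀ (P : ℂ) (r : ℝ), D < -P.im → ‖q P‖ < kap →
      q P = PorTS.tipq γ * cexp (-2 * u * r) → GoodP u q P) {P : ℂ} (hP : D < -P.im)
    (hoff : ¬ Off u (γ : ℂ) q P) : GoodP u q P := by
  unfold Off at hoff
  push Not at hoff
  obtain ⟨t, ht, heq⟩ := hoff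
  have hγc : (γ : ℂ) ^ 2 ≠ 0 := pow_ne_zero 2 (by exact_mod_cast hγ.ne')
  have h1 : q P = PorTS.tipq γ * cexp (-2 * u * t) := by
    have h2 : cexp (2 * (u * t)) * cexp (-2 * u * t) = 1 := by
      rw [← Complex.exp_add]
      have : 2 * (u * (t:ℂ)) + -2 * u * t = 0 := by ring
      rw [this, Complex.exp_zero]
    have h3 : PorTS.tipq γ = tipc / (γ : ℂ) ^ 2 := by
      unfold PorTS.tipq tipc
      push_cast
      field_simp
    rw [h3, ← heq, div_mul_eq_mul_div, eq_div_iff hγc]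
    linear_combination -((γ : ℂ) ^ 2 * q P) * h2
  refine hg P t hP ?_ h1
  rw [h1, norm_mul, Complex.norm_exp]
  have h4 : ‖PorTS.tipq γ‖ = Real.exp 2 / (4 * γ ^ 2) := by
    unfold PorTS.tipq
    rw [norm_neg, norm_real, Real.norm_eq_abs, abs_of_pos (by positivity)]
  have h5 : (-2 * u * (t:ℂ)).re = -(2 * t) := by
    simp [hu]
  rw [h4, h5]
  have h6 : Real.exp (-(2 * t)) ≤ 1 := Real.exp_le_one_iff.2 (by linarith)
  have h7 : 0 < Real.exp 2 / (4 * γ ^ 2) := by positivity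
  calc Real.exp 2 / (4 * γ ^ 2) * Real.exp (-(2 * t)) ≤ Real.exp 2 / (4 * γ ^ 2) * 1 := by gcongr
    _ < kap := by rw [mul_one]; exact hkap

end Pool.Agent.MP_ae5b4e_an_C
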