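import Pool.Agent.Lib.MP_ae5b4e_an_A5.Partner
import Pool.Agent.Lib.MP_ae5b4e_an_A5.TipT
import Pool.Agent.Lib.MP_ae5b4e_an_AZ.NDfZ
import Pool.Agent.Lib.MP_ae5b4e_an_T.T5b
import Pool.Agent.Lib.MP_ae5b4e_an_T.T5w
import Pool.Agent.Lib.MP_ae5b4e_an_WD.Pg
import Pool.Agent.Lib.MP_ae5b4e_an_A2.Meas2
import Pool.Agent.Lib.MP_ae5b4e_an_C.Gen
import Pool.Agent.Lib.MP_ae5b4e_an_C.GoodQ

/-!
# MP_ae5b4e_an, part C: STEP A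

`step_A`: for `K ≥ 1` there is a length `l` such that the limit label of the windows has, for some
`γ ∈ [K, 2 K]`, a point of type `I` on every interval of length `l`, if the labels over `[K, 2 K]` are deep
and the tip labels are good for almost all `γ`.
-/

set_option autoImplicit false

noncomputable section

namespace Pool.Agent.MP_ae5b4e_an_C

open Complex Set Filter Topology Metric MeasureTheory
open Pool.Agent.MP_ae5b4e_an_NB2 (Sys)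
open Pool.Agent.MP_ae5b4e_an_PB (Base)
open Pool.Agent.MP_ae5b4e_an_M
open Pool.Agent.MP_ae5b4e_an_A1 (Sd SB Slt)
open Pool.Agent.MP_ae5b4e_an_A2 (Contact contact_meas_c)
open Pool.Agent.MP_ae5b4e_an_A5 (NDf ndf_TAt partner exists_mid)
open Pool.Agent.MP_ae5b4e_an_AZ (ndf_ZkAt)
open Pool.Agent.MP_ae5b4e_an_WB (GoodP Off tipc Hm)
open Pool.Agent.MP_ae5b4e_an_WD (Pg no_wall_loc end_tip end_Z)
open Pool.Agent.MP_ae5b4e_an_T (Fm Lb Deep IAt RgN SlN PrT stretch_T slt_DI vmj vmj_cont vmj_le)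

variable {Y : Sys} {h R C0 : ℝ} {v : ℂ → ℝ} {G L : ℂ × ℂ → ℂ} {U : Ultrafilter ℕ} {β C1 : ℝ}
  {c V : ℕ → ℝ}

/-- a nonconstant function is not locally zero -/
theorem not_loc_zero {q : ℂ → ℂ} (hq : DifferentiableOn ℂ q Hm)
    (hne : ∃ z ∈ Hm, ∃ z' ∈ Hm, q z ≠ q z') {l : ℂ} (hl : l.im < 0) : ¬ ∀ᶠ z in 𝓝 l, q z = 0 := by
  intro h0
  have hHm : IsOpen Hm := isOpen_lt Complex.continuous_im continuous_const
  have hconn : IsPreconnected Hm := (convex_halfSpace_im_lt 0).isPreconnected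
  have han : AnalyticOnNhd ℂ q Hm := hq.analyticOnNhd hHm
  have hz := han.eqOn_zero_of_preconnected_of_eventuallyEq_zero hconn hl h0
  obtain ⟨z, hz1, z', hz2, h⟩ := hne
  apply h
  rw [hz hz1, hz hz2]
  rfl

/-- the stretch at a contact point -/
theorem str (hB : Base Y h R C0 v G L) (HW : Win v U β C1 c V) (x : ℕ → ℝ) {Cq kap : ℝ}
    (hF : Fm (WL Y h U c V) Cq kap) (hL : Lb (qI Y h U x c V) Cq (vI v U c V) (LI L h U x c V))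
    {γ : ℝ} (hγ : 1 ≤ γ) (hd : Deep (vI v U c V γ) (fun τ => LI L h U x c V (τ, γ)))
    (hgen : ∀ l : ℂ, 3 ≤ -l.im → (γ : ℂ) ^ 2 * qI Y h U x c V l = tipc →
      deriv (qI Y h U x c V) l ≠ 0)
    {C B rc p : ℝ} (hrc : 0 < rc) (hcon : Contact (vI v U c V) C B rc γ p)
    {x₁ x₂ : ℝ} (hlen : 6 * C * γ + 2 < x₂ - x₁)
    (hI : ∀ t ∈ Icc x₁ x₂, ¬ IAt (vI v U c V γ) (fun τ => LI L h U x c V (τ, γ)) t) :
    ∃ (y₁ y₂ r b : ℝ) (P : ℕ) (Tb : ℕ → ℂ → ℂ) (X : ℕ → ℝ) (Vm : ℂ → ℝ) (Λ : ℂ × ℂ → ℂ),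
      6 * C * γ < y₂ - y₁ ∧
      Sd (vI v U c V) Vm γ r y₁ y₂ (vI v U c V γ) b P Tb X ∧
      Slt (DI v U c V) (LI L h U x c V) Λ (SB γ r y₁ y₂ (vI v U c V γ) b P Tb) ∧
      ∀ i < P, AnalyticAt ℂ (Tb (i + 1)) (γ : ℂ) ∧
        ¬ RgN (vI v U c V) (LI L h U x c V) γ (((Tb (i + 1) γ).re : ℂ) - vI v U c V γ * I) ∧
        (∃ (R ρ : ℝ) (Λ' : ℂ × ℂ → ℂ), SlN (vI v U c V) (LI L h U x c V) γ
          (((Tb (i + 1) γ).re : ℂ) - vI v U c V γ * I) (Tb (i + 1)) R ρ Λ') ∧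
        PrT (qI Y h U x c V) (vI v U c V) (LI L h U x c V) γ (Tb (i + 1) γ).re (Tb (i + 1)) := by
  have hqW : qI Y h U x c V ∈ WL Y h U c V := ⟨x, rfl⟩
  have hC : 0 ≤ C := (abs_nonneg p).trans hcon.1
  have hCg : 0 ≤ 6 * C * γ := by positivity
  obtain ⟨y₁, y₂, r, b, P, Tb, X, Λ, h1, h2, h3, h4, -, -, -, hSd, hS, hi, -⟩ :=
    stretch_T hF hqW hL hγ hd hgen (x₁ := x₁) (x₂ := x₂) (by linarith) hI
      (Vm := vmj (vI v U c V γ) γ p C B) (r₀ := rc) hrc (vmj_cont _ _ _ _ _).continuousOn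
      (vmj_le hcon.2) (η := 1) one_pos
  refine ⟨y₁, y₂, r, b, P, Tb, X, _, Λ, by linarith, hSd, slt_DI hS, fun i hiP => ?_⟩
  obtain ⟨t, -, hn, ⟨R, ρ, Λ', -, hSl⟩, hPr⟩ := hi i hiP
  have ht : (Tb (i + 1) γ).re = t := by
    rw [hSl.T0]
    simp
  rw [ht]
  exact ⟨hSl.Tan _ (mem_ball_self hSl.pos), hn, ⟨R, ρ, Λ', hSl⟩, hPr⟩

/-- the support at a contact point -/
theorem supp (hB : Base Y h R C0 v G L) (HW : Win v U β C1 c V) (x : ℕ → ℝ) {Cq kap : ℝ}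
    (hF : Fm (WL Y h U c V) Cq kap) (hL : Lb (qI Y h U x c V) Cq (vI v U c V) (LI L h U x c V))
    {γ : ℝ} (hγ : 1 ≤ γ) (hd : Deep (vI v U c V γ) (fun τ => LI L h U x c V (τ, γ)))
    (hgen : ∀ l : ℂ, 3 ≤ -l.im → (γ : ℂ) ^ 2 * qI Y h U x c V l = tipc →
      deriv (qI Y h U x c V) l ≠ 0)
    {C B rc p : ℝ} (hrc : 0 < rc) (hB0 : 0 ≤ B) (hcon : Contact (vI v U c V) C B rc γ p)
    {x₁ x₂ : ℝ} (hlen : 6 * C * γ + 2 < x₂ - x₁)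
    (hI : ∀ t ∈ Icc x₁ x₂, ¬ IAt (vI v U c V γ) (fun τ => LI L h U x c V (τ, γ)) t) :
    ∃ T : ℂ → ℂ, AnalyticAt ℂ T γ ∧ (T γ).im = -vI v U c V γ ∧
      ∀ᶠ z in 𝓝 (γ : ℂ), -(T z).im ≤ vI v U c V z := by
  obtain ⟨y₁, y₂, r, b, P, Tb, X, Vm, Λ, hlen', hSd, hS, hi⟩ :=
    str hB HW x hF hL hγ hd hgen hrc hcon hlen hI
  have hC : 0 ≤ C := (abs_nonneg p).trans hcon.1
  have hCg : 0 ≤ C * γ := by positivity
  obtain ⟨j, hj, -, -⟩ := exists_mid hB HW x hrc hB0 hcon hSd hS (y₁ := y₁) (y₂ := y₂) le_rfl le_rfl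
    (by linarith)
  refine ⟨Tb (j + 1), (hi j hj).1, hSd.Tb_im j hj, ?_⟩
  filter_upwards [isOpen_ball.mem_nhds (mem_ball_self hSd.r_pos)] with z hz
  exact hSd.Tb_vi j hj z hz

/-- the branch points of the stretch are good -/
theorem pg_str {q : ℂ → ℂ} {Cq : ℝ} {vi : ℂ → ℝ} {L : ℂ × ℂ → ℂ} (hL : Lb q Cq vi L)
    (hne : ∃ z ∈ Hm, ∃ z' ∈ Hm, q z ≠ q z') {γ : ℝ} (hγ : 1 ≤ γ) {u : ℂ} (hu : 0 < u.re)
    (hgood : ∀ P : ℂ, 3 ≤ -P.im → ¬ Off u (γ : ℂ) q P → GoodP u q P) {t : ℝ} {T : ℂ → ℂ}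
    (hR : ¬ RgN vi L γ ((t : ℂ) - vi γ * I))
    (hS : ∃ (R ρ : ℝ) (Λ' : ℂ × ℂ → ℂ), SlN vi L γ ((t : ℂ) - vi γ * I) T R ρ Λ')
    (hP : PrT q vi L γ t T) : Pg q vi L u γ t T := by
  have hγ0 : (γ : ℂ) ≠ 0 := by
    have : γ ≠ 0 := by linarith
    exact_mod_cast this
  refine ⟨hS, hR, ?_⟩
  rcases hP with ⟨l, hl, -, -, hT, hfam⟩ | ⟨l, k, hl, -, hZ, hfam⟩
  · refine end_tip hL.ds hu hγ0 hT (hgood l hl ?_) (hfam u hu)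
    intro hoff
    apply hoff 0 le_rfl
    rw [ofReal_zero, mul_zero, mul_zero, Complex.exp_zero, mul_one]
    exact hT.tip
  · exact end_Z hL.ds hu hγ0 hZ (not_loc_zero hL.ds.qd hne hZ.low) (hfam u hu)

/-- the pair -/
theorem pair (hB : Base Y h R C0 v G L) (HW : Win v U β C1 c V) (x : ℕ → ℝ) {Cq kap : ℝ}
    (hF : Fm (WL Y h U c V) Cq kap) (hL : Lb (qI Y h U x c V) Cq (vI v U c V) (LI L h U x c V))
    {γ : ℝ} (hγ : 1 ≤ γ) (hd : Deep (vI v U c V γ) (fun τ => LI L h U x c V (τ, γ)))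
    (hgen : ∀ l : ℂ, 3 ≤ -l.im → (γ : ℂ) ^ 2 * qI Y h U x c V l = tipc →
      deriv (qI Y h U x c V) l ≠ 0)
    {C B rc p : ℝ} (hrc : 0 < rc) (hB0 : 0 ≤ B) (hcon : Contact (vI v U c V) C B rc γ p)
    {x₁ x₂ : ℝ} (hlen : 6 * C * γ + 2 < x₂ - x₁)
    (hI : ∀ t ∈ Icc x₁ x₂, ¬ IAt (vI v U c V γ) (fun τ => LI L h U x c V (τ, γ)) t)
    {u : ℂ} (hu : 0 < u.re) (hgood : ∀ P : ℂ, 3 ≤ -P.im → ¬ Off u (γ : ℂ) (qI Y h U x c V) P →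
      GoodP u (qI Y h U x c V) P) :
    ∃ (xb xd : ℝ) (Tb Td : ℂ → ℂ), xb ≠ xd ∧
      Pg (qI Y h U x c V) (vI v U c V) (LI L h U x c V) u γ xb Tb ∧
      Pg (qI Y h U x c V) (vI v U c V) (LI L h U x c V) u γ xd Td ∧
      Tb γ - γ * deriv Tb γ = Td γ - γ * deriv Td γ := by
  have hqW : qI Y h U x c V ∈ WL Y h U c V := ⟨x, rfl⟩
  have hne := hF.ne_const hqW
  obtain ⟨y₁, y₂, r, b, P, Tb, X, Vm, Λ, hlen', hSd, hS, hi⟩ :=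
    str hB HW x hF hL hγ hd hgen hrc hcon hlen hI
  have hnd : ∀ i < P, NDf Y h v L U x c V γ y₁ y₂ b P Tb Λ i := by
    intro i hiP
    obtain ⟨han, -, -, hPr⟩ := hi i hiP
    rcases hPr with ⟨l, hl, hT, hreg, -, -⟩ | ⟨l, k, hl, hZ, -, -⟩
    · exact ndf_TAt hB HW x hL hSd hS hiP (by linarith) hreg hT
    · exact ndf_ZkAt hB HW x hL hne hiP han (by linarith) hZ
  obtain ⟨i, hiP, j, hjP, hlt, heq⟩ := partner hB HW x hrc hB0 hcon hSd hS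
    (fun i hiP => (hi i hiP).1) hnd hlen'
  obtain ⟨-, a1, a2, a3⟩ := hi i hiP
  obtain ⟨-, b1, b2, b3⟩ := hi j hjP
  exact ⟨(Tb (i + 1) γ).re, (Tb (j + 1) γ).re, Tb (i + 1), Tb (j + 1), hlt.ne,
    pg_str hL hne hγ hu hgood a1 a2 a3, pg_str hL hne hγ hu hgood b1 b2 b3, heq⟩

/-- **STEP A, one interval of slices.** -/
theorem step_A {K C1 : ℝ} (hK : 1 ≤ K) (hC1 : 0 ≤ C1) :
    ∃ l : ℝ, 0 < l ∧ ∀ {Y : Sys} {h R C0 : ℝ} {v : ℂ → ℝ} {G L : ℂ × ℂ → ℂ} {U : Ultrafilter ℕ}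
      {β : ℝ} {c V : ℕ → ℝ} (_ : Base Y h R C0 v G L) (_ : Win v U β C1 c V) (x : ℕ → ℝ)
      {Cq kap : ℝ} (_ : Fm (WL Y h U c V) Cq kap)
      (_ : Lb (qI Y h U x c V) Cq (vI v U c V) (LI L h U x c V)) {u : ℂ},
      0 < u.re → u.im ≠ 0 →
      (∀ γ : ℝ, γ ∈ Icc K (2 * K) →
        Deep (vI v U c V γ) (fun τ => LI L h U x c V (τ, γ))) →
      (∀ γ : ℝ, γ ∈ Icc K (2 * K) → ∃ x0 : ℝ, ∀ t ∈ Icc x0 (x0 + l),
        ¬ IAt (vI v U c V γ) (fun τ => LI L h U x c V (τ, γ)) t) →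
      (∀ᵐ γ : ℝ, γ ∈ Ioo K (2 * K) → ∀ P : ℂ, 3 ≤ -P.im →
        ¬ Off u (γ : ℂ) (qI Y h U x c V) P → GoodP u (qI Y h U x c V) P) → False := by
  obtain ⟨C, B, r, hC, hB', hr, hrδ, hmain⟩ := contact_meas_c (a := K) (b := 2 * K)
    (M := C1 * (3 * K)) (δ := 1) (by linarith) (by positivity) one_pos
  refine ⟨12 * C * K + 3, by positivity, ?_⟩
  intro Y h R C0 v G L U β c V hB HW x Cq kap hF hL u hu hui hdeep hI hgood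
  have hqW : qI Y h U x c V ∈ WL Y h U c V := ⟨x, rfl⟩
  obtain ⟨N, hN, hgen⟩ := gen_countable hui (qI_hol hB HW x) (hF.ne_const hqW)
  have hgen' : ∀ γ : ℝ, γ ∈ Ioo K (2 * K) → γ ∉ N → ∀ l : ℂ, 3 ≤ -l.im →
      (γ : ℂ) ^ 2 * qI Y h U x c V l = tipc → deriv (qI Y h U x c V) l ≠ 0 := by
    intro γ hγ hγN l hl
    refine (hgen γ (by linarith [hγ.1]) hγN).2 l ?_
    show l.im < 0
    linarith
  have hlen : ∀ γ : ℝ, γ ∈ Ioo K (2 * K) → ∀ x0 : ℝ,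
      6 * C * γ + 2 < x0 + (12 * C * K + 3) - x0 := by
    intro γ hγ x0
    have h1 : C * γ < C * (2 * K) := mul_lt_mul_of_pos_left hγ.2 hC
    linarith
  have hbig := hmain (vI v U c V) (vI_sub hB.nv hB.R_pos HW)
    (vI_nonneg hB.nv hB.R_pos HW) (vI_bdd hB.nv hB.R_pos HW hK)
    {γ : ℝ | γ ∈ Ioo K (2 * K) → ∀ P : ℂ, 3 ≤ -P.im →
      ¬ Off u (γ : ℂ) (qI Y h U x c V) P → GoodP u (qI Y h U x c V) P} N
    (by
      refine measure_mono_null ?_ (ae_iff.1 hgood)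
      intro γ hγ
      exact hγ.2) hN
    (by
      intro γ hγ hγN hcon
      obtain ⟨p, hp⟩ := hcon
      obtain ⟨x0, hx0⟩ := hI γ ⟨hγ.1.le, hγ.2.le⟩
      exact supp hB HW x hF hL (hK.trans hγ.1.le) (hdeep γ ⟨hγ.1.le, hγ.2.le⟩)
        (hgen' γ hγ hγN) hr hB'.le hp (hlen γ hγ x0) hx0)
  obtain ⟨A, hAdef⟩ : ∃ A : Set ℝ, A = {g : ℝ | g ∈ Ioo K (2 * K) ∧
      g ∈ {γ : ℝ | γ ∈ Ioo K (2 * K) → ∀ P : ℂ, 3 ≤ -P.im →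
      ¬ Off u (γ : ℂ) (qI Y h U x c V) P → GoodP u (qI Y h U x c V) P} ∧
      ∃ p, Contact (vI v U c V) C B r g p} := ⟨_, rfl⟩
  rw [← hAdef] at hbig
  have hA : ¬ (A \ N).Countable := fun hc => hbig ((hc.union hN).mono (fun g hg => by
    by_cases h : g ∈ N
    · exact Or.inr h
    · exact Or.inl ⟨hg, h⟩))
  have hpair : ∀ γ : ℝ, ∃ (xb xd : ℝ) (Tb Td : ℂ → ℂ), γ ∈ A \ N → xb ≠ xd ∧
      Pg (qI Y h U x c V) (vI v U c V) (LI L h U x c V) u γ xb Tb ∧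
      Pg (qI Y h U x c V) (vI v U c V) (LI L h U x c V) u γ xd Td ∧
      Tb γ - γ * deriv Tb γ = Td γ - γ * deriv Td γ := by
    intro γ
    by_cases hγ : γ ∈ A \ N
    · obtain ⟨hγA, hγN⟩ := hγ
      have hγA' := hγA
      rw [hAdef] at hγA'
      obtain ⟨hγ1, hγ2, p, hp⟩ := hγA'
      obtain ⟨x0, hx0⟩ := hI γ ⟨hγ1.1.le, hγ1.2.le⟩
      obtain ⟨xb, xd, Tb, Td, h1⟩ := pair hB HW x hF hL (hK.trans hγ1.1.le)
        (hdeep γ ⟨hγ1.1.le, hγ1.2.le⟩) (hgen' γ hγ1 hγN) hr hB'.le hp (hlen γ hγ1 x0) hx0 hu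
        (hγ2 hγ1)
      exact ⟨xb, xd, Tb, Td, fun _ => h1⟩
    · exact ⟨0, 0, id, id, fun h => absurd h hγ⟩
  choose xb xd Tb Td hP using hpair
  have hmemA : ∀ γ : ℝ, γ ∈ A \ N → γ ∈ Ioo K (2 * K) ∧ (γ ∈ Ioo K (2 * K) → ∀ P : ℂ, 3 ≤ -P.im →
      ¬ Off u (γ : ℂ) (qI Y h U x c V) P → GoodP u (qI Y h U x c V) P) := by
    intro γ hγ
    have h1 := hγ.1
    rw [hAdef] at h1
    exact ⟨h1.1, h1.2.1⟩
  refine no_wall_loc hL hu hA (fun γ hγ => by linarith [(hmemA γ hγ).1.1])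
    (fun γ hγ => (hP γ hγ).2.1) (fun γ hγ => (hP γ hγ).2.2.1) (fun γ hγ => (hP γ hγ).1)
    (fun γ hγ => (hP γ hγ).2.2.2) (ε0 := fun _ => 1) (fun _ _ => one_pos) ?_
  intro γ hγ τ _ hτ _ _ hoff
  obtain ⟨h1, h2⟩ := hmemA γ hγ
  exact h2 h1 _ (hdeep γ ⟨h1.1.le, h1.2.le⟩ τ hτ) hoff

/-- STEP A with the conclusion of `exists_goodQ` -/
theorem step_A' {K C1 : ℝ} (hK : 1 ≤ K) (hC1 : 0 ≤ C1) :
    ∃ l : ℝ, 0 < l ∧ ∀ {Y : Sys} {h R C0 : ℝ} {v : ℂ → ℝ} {G L : ℂ × ℂ → ℂ} {U : Ultrafilter ℕ}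
      {β : ℝ} {c V : ℕ → ℝ} (_ : Base Y h R C0 v G L) (_ : Win v U β C1 c V) (x : ℕ → ℝ)
      {Cq kap : ℝ} (_ : Fm (WL Y h U c V) Cq kap)
      (_ : Lb (qI Y h U x c V) Cq (vI v U c V) (LI L h U x c V)) {u : ℂ},
      u.re = 1 → u.im ≠ 0 →
      (∀ γ : ℝ, γ ∈ Icc K (2 * K) →
        Deep (vI v U c V γ) (fun τ => LI L h U x c V (τ, γ))) →
      (∀ γ : ℝ, γ ∈ Icc K (2 * K) → ∃ x0 : ℝ, ∀ t ∈ Icc x0 (x0 + l),
        ¬ IAt (vI v U c V γ) (fun τ => LI L h U x c V (τ, γ)) t) →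
      ∀ {e d0 kap' : ℝ}, e + 2 * d0 < 3 → Real.exp 2 / (4 * K ^ 2) < kap' →
      (∀ᵐ γ : ℝ, 0 < γ →
        (∀ z : ℂ, z.im < -e → deriv (qI Y h U x c V) z = 0 → ∀ r : ℝ,
          qI Y h U x c V z ≠ PorTS.tipq γ * cexp (-2 * u * r)) ∧
        ∀ (P : ℂ) (r : ℝ), e + 2 * d0 < -P.im → ‖qI Y h U x c V P‖ < kap' →
          qI Y h U x c V P = PorTS.tipq γ * cexp (-2 * u * r) → GoodP u (qI Y h U x c V) P) →
      False := by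
  obtain ⟨l, hl, hmain⟩ := step_A hK hC1
  refine ⟨l, hl, ?_⟩
  intro Y h R C0 v G L U β c V hB HW x Cq kap hF hL u hu hui hdeep hI e d0 kap' he hk hae
  refine hmain hB HW x hF hL (by rw [hu]; exact one_pos) hui hdeep hI ?_
  filter_upwards [hae] with γ hγ hγK P hP hoff
  have hγ0 : 0 < γ := by linarith [hγK.1]
  refine goodP_of_not_off hu hγ0 ?_ (hγ hγ0).2 (by linarith) hoff
  refine lt_of_le_of_lt ?_ hk
  have hK0 : 0 < K := by linarith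
  have h1 : K ^ 2 ≤ γ ^ 2 := pow_le_pow_left₀ hK0.le hγK.1.le 2
  exact div_le_div_of_nonneg_left (Real.exp_pos _).le (by positivity) (by linarith)

end Pool.Agent.MP_ae5b4e_an_C
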