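import Pool.Agent.Lib.MP_ae5b4e_an_C.GoodQ
import Pool.Agent.Lib.MP_ae5b4e_an_T.T5w
import Pool.Agent.Lib.MP_ae5b4e_an_T.InB

/-!
# MP_ae5b4e_an, part C: the stage

`Stg` collects everything which is known about the window limit of the proof of (N2): it is the
output of `exists_goodQ`, `win_T` and `interior`, and the input of step A.
-/

set_option autoImplicit false

noncomputable section

namespace Pool.Agent.MP_ae5b4e_an_C

open Complex Set Filter Topology Metric MeasureTheory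
open Pool.Agent.MP_ae5b4e_an_NB2 (Sys)
open Pool.Agent.MP_ae5b4e_an_PB (Base)
open Pool.Agent.MP_ae5b4e_an_M
open Pool.Agent.MP_ae5b4e_an_T
open Pool.Agent.MP_ae5b4e_an_WB (GoodP Off tipc)

/-- the stage: the window limit `q = qI x`, with `Fm`, `Lb`, `Deep` for `γ ≥ K0`, and the good
parameters (`u = 1 + i`) -/
structure Stg (Y : Sys) (h R C0 : ℝ) (v : ℂ → ℝ) (G L : ℂ × ℂ → ℂ) (U : Ultrafilter ℕ)
    (β C1 : ℝ) (c V x : ℕ → ℝ) (Cq kap' kap K0 : ℝ) : Prop where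
  base : Base Y h R C0 v G L
  win : Win v U β C1 c V
  fm : Fm (WL Y h U c V) Cq kap'
  lb : Lb (qI Y h U x c V) Cq (vI v U c V) (LI L h U x c V)
  ne : ∃ z ∈ PorTR.Hm, qI Y h U x c V z ≠ 0
  K0_one : 1 ≤ K0
  kap_K0 : Real.exp 2 / (4 * K0 ^ 2) < kap
  deep : ∀ γ : ℝ, K0 ≤ γ → Deep (vI v U c V γ) (fun τ => LI L h U x c V (τ, γ))
  good : ∀ᵐ γ : ℝ, 0 < γ →
    (∀ z : ℂ, z.im < -(1 / 2) → deriv (qI Y h U x c V) z = 0 → ∀ r : ℝ,
      qI Y h U x c V z ≠ PorTS.tipq γ * cexp (-2 * (1 + I) * r)) ∧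
    ∀ (P : ℂ) (r : ℝ), 1 / 2 + 2 * (1 / 2) < -P.im → ‖qI Y h U x c V P‖ < kap →
      qI Y h U x c V P = PorTS.tipq γ * cexp (-2 * (1 + I) * r) → GoodP (1 + I) (qI Y h U x c V) P

variable {Y : Sys} {h R C0 : ℝ} {v : ℂ → ℝ} {G L : ℂ × ℂ → ℂ} {U : Ultrafilter ℕ} {β C1 : ℝ}
  {c V : ℕ → ℝ}

/-- there is a stage -/
theorem exists_stg (hB : Base Y h R C0 v G L) (HW : Win v U β C1 c V) {η : ℝ} (hη : 0 < η)
    (hv : ∀ᶠ n in (U : Filter ℕ), η * V n ≤ v (c n)) :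
    ∃ (x : ℕ → ℝ) (Cq kap' kap K0 : ℝ), Stg Y h R C0 v G L U β C1 c V x Cq kap' kap K0 := by
  obtain ⟨x, kap, hkap, hae⟩ := exists_goodQ hB HW hη hv (u := 1 + I) (by simp) (by simp)
    (e := 1 / 2) (d0 := 1 / 2) (by norm_num) (by norm_num)
  obtain ⟨Cq, kap', hF, hL⟩ := win_T hB HW hη hv
  obtain ⟨K1, hK1, hdeep⟩ := interior hF
  have hlim : Tendsto (fun K : ℝ => Real.exp 2 / (4 * K ^ 2)) atTop (𝓝 0) :=
    Tendsto.div_atTop tendsto_const_nhds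
      ((tendsto_pow_atTop two_ne_zero).const_mul_atTop (by norm_num))
  obtain ⟨K2, hK2⟩ := eventually_atTop.1 (hlim.eventually (gt_mem_nhds hkap))
  refine ⟨x, Cq, kap', kap, max K1 K2, hB, HW, hF, hL x, ?_, hK1.trans (le_max_left _ _),
    hK2 _ (le_max_right _ _), ?_, hae⟩
  · obtain ⟨l, hl, hl'⟩ := Pool.Agent.MP_ae5b4e_an_MT.sat hB HW x hη hv
    exact ⟨l, hl, hl'⟩
  · intro γ hγ
    have hγ1 : K1 ≤ γ := (le_max_left _ _).trans hγ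
    exact hdeep _ ⟨x, rfl⟩ γ _ _ hγ1 ((hL x).sl (by linarith))

variable {x : ℕ → ℝ} {Cq kap' kap K0 : ℝ}

/-- the slices of the stage -/
theorem Stg.sl (S : Stg Y h R C0 v G L U β C1 c V x Cq kap' kap K0) {γ : ℝ} (hγ : K0 ≤ γ) :
    Sl (qI Y h U x c V) Cq γ (vI v U c V γ) (fun τ => LI L h U x c V (τ, γ)) :=
  S.lb.sl (zero_lt_one.trans_le (S.K0_one.trans hγ))

/-- the labels which are met by a tip are good -/
theorem Stg.goodP (S : Stg Y h R C0 v G L U β C1 c V x Cq kap' kap K0) :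
    ∀ᵐ γ : ℝ, K0 ≤ γ →
      (∀ l : ℂ, 3 ≤ -l.im → (γ : ℂ) ^ 2 * qI Y h U x c V l = tipc →
        deriv (qI Y h U x c V) l ≠ 0) ∧
      (∀ P : ℂ, 3 ≤ -P.im → ¬ Off (1 + I) (γ : ℂ) (qI Y h U x c V) P →
        GoodP (1 + I) (qI Y h U x c V) P) ∧
      ∀ τ : ℂ, τ.im < -vI v U c V γ → ¬ Off (1 + I) (γ : ℂ) (qI Y h U x c V)
        (LI L h U x c V (τ, γ)) → GoodP (1 + I) (qI Y h U x c V) (LI L h U x c V (τ, γ)) := by
  filter_upwards [S.good] with γ hγ hK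
  have hγ0 : 0 < γ := zero_lt_one.trans_le (S.K0_one.trans hK)
  obtain ⟨h1, h2⟩ := hγ hγ0
  have hγc : (γ : ℂ) ^ 2 ≠ 0 := pow_ne_zero 2 (by exact_mod_cast hγ0.ne')
  have hkap : Real.exp 2 / (4 * γ ^ 2) < kap := by
    refine lt_of_le_of_lt ?_ S.kap_K0
    have h4 : 0 < K0 := zero_lt_one.trans_le S.K0_one
    gcongr
  have h3 : ∀ P : ℂ, 3 ≤ -P.im → ¬ Off (1 + I) (γ : ℂ) (qI Y h U x c V) P →
      GoodP (1 + I) (qI Y h U x c V) P := fun P hP hoff =>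
    goodP_of_not_off (D := 1 / 2 + 2 * (1 / 2)) (by simp) hγ0 hkap h2 (by norm_num; linarith) hoff
  refine ⟨fun l hl htip hd => ?_, h3, fun τ hτ hoff => h3 _ (S.deep γ hK τ hτ) hoff⟩
  refine h1 l (by linarith) hd 0 ?_
  have h5 : PorTS.tipq γ = tipc / (γ : ℂ) ^ 2 := by
    unfold PorTS.tipq tipc
    push_cast
    field_simp
  rw [h5, ← htip, ofReal_zero, mul_zero, Complex.exp_zero, mul_one, mul_div_cancel_left₀ _ hγc]

end Pool.Agent.MP_ae5b4e_an_C
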