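import Pool.Agent.Lib.MP_ae5b4e_an_C.WinN
import Pool.Agent.Lib.MP_ae5b4e_an_C.Part
import Pool.Agent.Lib.MP_ae5b4e_an_C.Stg
import Pool.Agent.Lib.MP_ae5b4e_an_NI.NoI

/-!
# MP_ae5b4e_an, part C: (N2)

If (N2) fails for the exponent `δ / 2`, there is a sequence of windows (`exists_win`), hence a stage
(`exists_stg`). By `NI.noI` there is `K ≥ K0` such that all slices `γ ∈ [K, 2 K]` have a long interval
without points of type `I`; this contradicts step A.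
-/

set_option autoImplicit false

noncomputable section

namespace Pool.Agent.MP_ae5b4e_an_C

open Complex Set Filter Topology Metric MeasureTheory
open Pool.Agent.MP_ae5b4e_an_NB2 (Sys)
open Pool.Agent.MP_ae5b4e_an_N5 (VV N2)
open Pool.Agent.MP_ae5b4e_an_PB (Base)
open Pool.Agent.MP_ae5b4e_an_M
open Pool.Agent.MP_ae5b4e_an_T

variable {Y : Sys} {h R C0 : ℝ} {v : ℂ → ℝ} {G L : ℂ × ℂ → ℂ}

/-- there is no sequence of windows with a large real value -/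
theorem no_win (hB : Base Y h R C0 v G L) {U : Ultrafilter ℕ} {β C1 : ℝ} {c V : ℕ → ℝ}
    (HW : Win v U β C1 c V) {η : ℝ} (hη : 0 < η) (hv : ∀ᶠ n in (U : Filter ℕ), η * V n ≤ v (c n)) :
    False := by
  obtain ⟨x, Cq, kap', kap, K0, S⟩ := exists_stg hB HW hη hv
  have hC1 : 0 ≤ C1 := by linarith [HW.C1_one]
  choose! l hl hA using fun (K : ℝ) (hK : 1 ≤ K) => step_A' hK hC1
  obtain ⟨K, hK, hI⟩ := Pool.Agent.MP_ae5b4e_an_NI.noI S.fm (q := qI Y h U x c V) ⟨x, rfl⟩ S.ne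
    S.K0_one (v := fun γ => vI v U c V (γ : ℂ)) (f := fun γ τ => LI L h U x c V (τ, (γ : ℂ)))
    (fun γ hγ => ⟨S.sl hγ, S.deep γ hγ, asy_LI hB HW x γ⟩) l
  have hK0 : 0 < K0 := zero_lt_one.trans_le S.K0_one
  have hkap : Real.exp 2 / (4 * K ^ 2) < kap := by
    refine lt_of_le_of_lt ?_ S.kap_K0
    gcongr
  exact hA K (S.K0_one.trans hK) hB HW x S.fm S.lb (u := 1 + I) (by simp) (by simp)
    (fun γ hγ => S.deep γ (hK.trans hγ.1)) hI (e := 1 / 2) (d0 := 1 / 2) (by norm_num) hkap S.good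

/-- **(N2).** -/
theorem n2 (hB : Base Y h R C0 v G L) {δ C r₁ : ℝ} (hδ : 0 < δ) (hδ1 : δ ≤ 1) (hr₁ : 0 < r₁)
    (hup : ∀ r, 0 < r → r < r₁ → VV v r ≤ C * r ^ δ) : ∃ r₀ > 0, N2 v r₀ (δ / 2) := by
  by_contra hN
  obtain ⟨η, hη, C1, c, V, HW, hv⟩ := exists_win hB (half_pos hδ) (by linarith) hδ hr₁ hup hN
  exact no_win hB HW hη (Filter.Eventually.of_forall hv)

end Pool.Agent.MP_ae5b4e_an_C
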