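import Pool.Agent.Lib.MP_ae5b4e_an_M.Defs

/-!
# MP_ae5b4e_an, part C: if (N2) fails there is a sequence of windows
-/

noncomputable section

namespace Pool.Agent.MP_ae5b4e_an_C

open Complex Set Filter Topology Metric
open Pool.Agent.MP_ae5b4e_an_NB2 (Sys)
open Pool.Agent.MP_ae5b4e_an_N5 (NV VV N2)
open Pool.Agent.MP_ae5b4e_an_PB (Base)
open Pool.Agent.MP_ae5b4e_an_M (Win)

variable {Y : Sys} {h R C0 : ℝ} {v : ℂ → ℝ} {G L : ℂ × ℂ → ℂ}

theorem le_VV (hB : Base Y h R C0 v G L) {r : ℝ} (hr : r < R) {ρ : ℂ} (hρ : ‖ρ‖ ≤ r) :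
    v ρ ≤ VV v r := by
  refine le_csSup ⟨C0, ?_⟩ ⟨ρ, by simpa using hρ, rfl⟩
  rintro _ ⟨z, hz, rfl⟩
  rw [mem_closedBall_zero_iff] at hz
  exact hB.nv.up z (by rw [mem_ball_zero_iff]; linarith)

/-- If (N2) fails there is a sequence of windows with a large real value. -/
theorem exists_win (hB : Base Y h R C0 v G L) {δ C r₁ β : ℝ} (hβ : 0 < β) (hβ1 : β ≤ 1)
    (hδ : 0 < δ) (hr₁ : 0 < r₁) (hup : ∀ r, 0 < r → r < r₁ → VV v r ≤ C * r ^ δ)
    (hN : ¬ ∃ r₀ > 0, N2 v r₀ β) :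
    ∃ η > 0, ∃ (C1 : ℝ) (c V : ℕ → ℝ), Win v (hyperfilter ℕ) β C1 c V ∧
      ∀ n, η * V n ≤ v (c n) := by
  have hR := hB.R_pos
  push Not at hN
  have h1 := hN (min R r₁ / 2) (by positivity)
  unfold N2 at h1
  push Not at h1
  obtain ⟨η, hη, C', hC', h2⟩ := h1
  choose c hc0 hcK hcM hco hfi hge using fun n : ℕ => h2 ((n:ℝ) + 1) (by linarith [n.cast_nonneg (α := ℝ)])
    ((n:ℝ) + 1) (by positivity)
  have hn1 : ∀ n : ℕ, (1:ℝ) ≤ (n:ℝ) + 1 := fun n => by linarith [n.cast_nonneg (α := ℝ)]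
  have hcr : ∀ n : ℕ, ((n:ℝ) + 1) * c n < min R r₁ := by
    intro n
    have h3 : 0 < min R r₁ := lt_min hR hr₁
    linarith [hcK n]
  have hcle : ∀ n : ℕ, c n ≤ ((n:ℝ) + 1) * c n := fun n => le_mul_of_one_le_left (hc0 n).le (hn1 n)
  have hV0 : ∀ n, 0 < VV v (c n) := fun n =>
    lt_of_lt_of_le (mul_pos (by linarith [hn1 n]) (hc0 n)) (hcM n)
  -- limits
  have hclim : Tendsto c atTop (𝓝 0) := by
    have h3 : Tendsto (fun n : ℕ => min R r₁ * (1 / ((n:ℝ) + 1))) atTop (𝓝 (min R r₁ * 0)) :=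
      tendsto_one_div_add_atTop_nhds_zero_nat.const_mul _
    rw [mul_zero] at h3
    refine squeeze_zero (fun n => (hc0 n).le) (fun n => ?_) h3
    rw [mul_one_div, le_div_iff₀ (by linarith [hn1 n]), mul_comm]
    exact (hcr n).le
  have hVlim : Tendsto (fun n => VV v (c n)) atTop (𝓝 0) := by
    have h3 : Tendsto (fun n => C * c n ^ δ) atTop (𝓝 (C * (0:ℝ) ^ δ)) :=
      (hclim.rpow_const (Or.inr hδ.le)).const_mul _
    rw [Real.zero_rpow hδ.ne', mul_zero] at h3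
    refine squeeze_zero (fun n => (hV0 n).le) (fun n => ?_) h3
    exact hup _ (hc0 n) (lt_of_le_of_lt (hcle n) ((hcr n).trans_le (min_le_right _ _)))
  have hNlim : Tendsto (fun n => VV v (c n) / c n) atTop atTop := by
    refine tendsto_atTop_mono (fun n => ?_) tendsto_natCast_atTop_atTop
    rw [le_div_iff₀ (hc0 n)]
    refine le_trans ?_ (hcM n)
    have := (hc0 n).le
    nlinarith
  have hfree : ((hyperfilter ℕ : Ultrafilter ℕ) : Filter ℕ) ≤ atTop := Nat.hyperfilter_le_atTop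
  refine ⟨η, hη, max C' 1, c, fun n => VV v (c n), ⟨hβ, hβ1, le_max_right _ _, hc0, hV0,
    hclim.mono_left hfree, hVlim.mono_left hfree, hNlim.mono_left hfree, fun K hK => ?_⟩, hge⟩
  have h3 : ∀ᶠ n : ℕ in ((hyperfilter ℕ : Ultrafilter ℕ) : Filter ℕ), K ≤ (n:ℝ) + 1 := by
    refine Filter.Eventually.filter_mono hfree ?_
    filter_upwards [tendsto_natCast_atTop_atTop.eventually_ge_atTop K] with n hn
    linarith
  filter_upwards [h3] with n hn γ h4 h5
  have hγ0 : 0 < ‖γ‖ := lt_of_lt_of_le (by positivity) h4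
  set r : ℝ := c n * ‖γ‖ with hr
  have hr0 : 0 < r := mul_pos (hc0 n) hγ0
  have hrK : r ≤ ((n:ℝ) + 1) * c n := by
    rw [hr, mul_comm]
    exact mul_le_mul_of_nonneg_right (h5.trans hn) (hc0 n).le
  have hrR : r < R := hrK.trans_lt ((hcr n).trans_le (min_le_left _ _))
  have h6 : v (c n * γ) ≤ VV v r := by
    refine le_VV hB hrR ?_
    rw [norm_mul, norm_real, Real.norm_eq_abs, abs_of_pos (hc0 n)]
  have hrc : r / c n = ‖γ‖ := by
    rw [hr]
    field_simp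
    rw [div_self (hc0 n).ne']
  have hV := (hV0 n).le
  have hm0 : 0 ≤ max ‖γ‖ (‖γ‖ ^ β) := le_max_of_le_left hγ0.le
  rcases le_total 1 ‖γ‖ with h7 | h7
  · have h8 : c n ≤ r := by
      rw [hr]
      exact le_mul_of_one_le_right (hc0 n).le h7
    have h9 := hco n r h8 hrK
    rw [hrc] at h9
    calc v (c n * γ) ≤ C' * ‖γ‖ * VV v (c n) := h6.trans h9
      _ ≤ max C' 1 * max ‖γ‖ (‖γ‖ ^ β) * VV v (c n) := by
        gcongr
        · exact le_max_left _ _
        · exact le_max_left _ _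
  · have h8 : r ≤ c n := by
      rw [hr]
      exact mul_le_of_le_one_right (hc0 n).le h7
    have h9 := hfi n r hr0 h8
    rw [hrc] at h9
    calc v (c n * γ) ≤ C' * ‖γ‖ ^ β * VV v (c n) := h6.trans h9
      _ ≤ max C' 1 * max ‖γ‖ (‖γ‖ ^ β) * VV v (c n) := by
        gcongr
        · exact le_max_left _ _
        · exact le_max_right _ _

end Pool.Agent.MP_ae5b4e_an_C
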